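import Pool.Agent.Helper54.CG.Goals

/-! Packet CG-MSH (MP_c70db9_ag). -/

namespace Pool.Agent.Helper82.CG.MSH

open MvPolynomial Pool.Agent.Helper16.Cusp Pool.Agent.Helper54.CG

theorem t : G_MS := by
  intro s hs
  have h27 : ∀ v : V, eval v (pderiv 0 pM) =
      2 * v 0 * v 1 ^ 2 - 12 * v 0 ^ 2 * v 2 ^ 3 + 18 * v 1 * v 2 ^ 3 := by
    intro v
    have e4 : (4 : R) = C 4 := rfl
    have e18 : (18 : R) = C 18 := rfl
    have e27 : (27 : R) = C 27 := rfl
    rw [pM, e4, e18, e27]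
    simp only [map_add, map_sub, map_mul, map_pow, pderiv_C, pderiv_X_self,
      Derivation.leibniz, Derivation.leibniz_pow, smul_eq_mul, nsmul_eq_mul, eval_X, eval_C]
    have h10 : pderiv (0 : Fin 3) (X 1 : R) = 0 := pderiv_X_of_ne (by decide)
    have h20 : pderiv (0 : Fin 3) (X 2 : R) = 0 := pderiv_X_of_ne (by decide)
    rw [h10, h20]
    simp
    ring
  have h28 : ∀ v : V, eval v (pderiv 1 pM) =
      2 * v 0 ^ 2 * v 1 - 12 * v 1 ^ 2 + 18 * v 0 * v 2 ^ 3 := by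
    intro v
    have e4 : (4 : R) = C 4 := rfl
    have e18 : (18 : R) = C 18 := rfl
    have e27 : (27 : R) = C 27 := rfl
    rw [pM, e4, e18, e27]
    simp only [map_add, map_sub, map_mul, map_pow, pderiv_C, pderiv_X_self,
      Derivation.leibniz, Derivation.leibniz_pow, smul_eq_mul, nsmul_eq_mul, eval_X, eval_C]
    have h10 : pderiv (1 : Fin 3) (X 0 : R) = 0 := pderiv_X_of_ne (by decide)
    have h20 : pderiv (1 : Fin 3) (X 2 : R) = 0 := pderiv_X_of_ne (by decide)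
    rw [h10, h20]
    simp
    ring
  have p0 : pt s 0 = 2 * s + 1 / s ^ 2 := rfl
  have p1 : pt s 1 = s ^ 2 + 2 / s := rfl
  have p2 : pt s 2 = 1 := rfl
  refine ⟨?_, ?_, ?_⟩
  · have e4 : (4 : R) = C 4 := rfl
    have e18 : (18 : R) = C 18 := rfl
    have e27 : (27 : R) = C 27 := rfl
    rw [pM, e4, e18, e27]
    simp only [map_add, map_sub, map_mul, map_pow, eval_X, eval_C, p0, p1, p2]
    field_simp
    ring
  · rw [h27, h28, p0, p1, p2]
    field_simp
    ring
  · intro h3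
    rw [h28, p0, p1, p2]
    have e : 2 * (2 * s + 1 / s ^ 2) ^ 2 * (s ^ 2 + 2 / s) - 12 * (s ^ 2 + 2 / s) ^ 2 +
        18 * (2 * s + 1 / s ^ 2) * 1 ^ 3 = -4 * (s ^ 3 - 1) ^ 3 / s ^ 5 := by
      field_simp
      ring
    rw [e]
    exact div_ne_zero (mul_ne_zero (by norm_num) (pow_ne_zero _ (sub_ne_zero.2 h3)))
      (pow_ne_zero _ hs)

theorem hsub {P Q : R} {n : ℕ} (hP : IsWeightedHomogeneous wt P n)
    (hQ : IsWeightedHomogeneous wt Q n) : IsWeightedHomogeneous wt (P - Q) n :=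
  (weightedHomogeneousSubmodule ℂ wt n).sub_mem hP hQ

theorem hadd {P Q : R} {n : ℕ} (hP : IsWeightedHomogeneous wt P n)
    (hQ : IsWeightedHomogeneous wt Q n) : IsWeightedHomogeneous wt (P + Q) n :=
  (weightedHomogeneousSubmodule ℂ wt n).add_mem hP hQ

theorem hc {P : R} {n : ℕ} (z : ℂ) (hP : IsWeightedHomogeneous wt P n) :
    IsWeightedHomogeneous wt (C z * P) n := by
  have := (isWeightedHomogeneous_C wt z).mul hP
  rwa [zero_add] at this

theorem hX (i : Fin 3) : IsWeightedHomogeneous wt (X i : R) (wt i) := isWeightedHomogeneous_X ℂ wt i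

theorem cast {P : R} {n m : ℕ} (h : IsWeightedHomogeneous wt P n) (e : n = m) :
    IsWeightedHomogeneous wt P m := e ▸ h

theorem hff (i : Fin 3) : IsWeightedHomogeneous wt (ff i) (3 * wt i) := by
  have h0 : IsWeightedHomogeneous wt (X 0 : R) 1 := hX 0
  have h1 : IsWeightedHomogeneous wt (X 1 : R) 2 := hX 1
  have h2 : IsWeightedHomogeneous wt (X 2 : R) 1 := hX 2
  have hD : IsWeightedHomogeneous wt (X 0 ^ 2 - C 4 * X 1 : R) 2 := hsub (cast (h0.pow 2) rfl) (hc 4 h1)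
  have hA : IsWeightedHomogeneous wt pA 3 := by
    have e : pA = X 0 ^ 3 - C 36 * (X 0 * X 1) + C 216 * X 2 ^ 3 := by
      have e1 : (C 36 : R) = 36 := rfl
      have e2 : (C 216 : R) = 216 := rfl
      rw [pA, e1, e2]; ring
    rw [e]
    exact hadd (hsub (cast (h0.pow 3) rfl) (hc _ (h0.mul h1))) (hc _ (cast (h2.pow 3) rfl))
  have hB : IsWeightedHomogeneous wt pB 6 := by
    have e : pB = C (-27) * (X 1 * (X 0 ^ 2 - C 4 * X 1) ^ 2) +
        C 972 * (X 2 ^ 3 * ((X 0 ^ 3 - C 4 * (X 0 * X 1)) + C 12 * X 2 ^ 3)) := by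
      have e1 : (C (-27) : R) = -27 := by rw [map_neg]; rfl
      have e2 : (C 972 : R) = 972 := rfl
      have e3 : (C 4 : R) = 4 := rfl
      have e4 : (C 12 : R) = 12 := rfl
      rw [pB, e1, e2, e3, e4]; ring
    rw [e]
    exact hadd (hc _ (cast (h1.mul (hD.pow 2)) rfl)) (hc _ (cast ((h2.pow 3).mul
      (hadd (hsub (cast (h0.pow 3) rfl) (hc _ (h0.mul h1))) (hc _ (cast (h2.pow 3) rfl)))) rfl))
  have hC : IsWeightedHomogeneous wt pC 3 := by
    have e : pC = C 9 * (X 2 * (X 0 ^ 2 - C 4 * X 1)) := by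
      have e1 : (C 9 : R) = 9 := rfl
      have e3 : (C 4 : R) = 4 := rfl
      rw [pC, e1, e3]; ring
    rw [e]
    exact hc _ (h2.mul hD)
  fin_cases i
  · exact hA
  · exact hB
  · exact hC

theorem t2 : G_HOM := by
  intro F n hF
  have e : pull F = ∑ d ∈ F.support, C (coeff d F) * ∏ i, ff i ^ d i := by
    rw [Pool.Agent.Helper54.CG.pull, aeval_def, eval₂_eq']
    rfl
  rw [e]
  refine IsWeightedHomogeneous.sum _ _ _ fun d hd => ?_
  refine hc _ ?_
  have hw : Finsupp.weight wt d = n := hF (mem_support_iff.1 hd)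
  have hp : IsWeightedHomogeneous wt (∏ i, ff i ^ d i) (∑ i, d i • (3 * wt i)) :=
    IsWeightedHomogeneous.prod _ _ _ fun i _ => (hff i).pow (d i)
  refine cast hp ?_
  rw [← hw, Finsupp.weight_apply, Finsupp.sum_fintype _ _ (by simp), Finset.mul_sum]
  refine Finset.sum_congr rfl fun i _ => ?_
  simp only [smul_eq_mul]
  ring

end Pool.Agent.Helper82.CG.MSH
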